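import Pool.Agent.V11329.Penney.Count

/-! Penney's game against a uniformly random first player. -/

set_option autoImplicit false

namespace Pool.Agent.Results.MP_988dcd_pr.RandomPlayerBound

open Pool.Agent.V11329.Penney Pool.Agent.V11329.Avg

lemma card_strings (n : ℕ) : (Finset.univ : Finset (Fin n → Bool)).card = 2 ^ n := by
  rw [Finset.card_univ, Fintype.card_fun, Fintype.card_bool, Fintype.card_fin]

lemma nonempty_resp (N : ℕ) (A : Fin (N + 1) → Bool) :
    ∃ b : Bool, A ≠ resp b A := by
  by_contra hcon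
  push Not at hcon
  have h1 := congrFun (hcon true) 0
  have h2 := congrFun (hcon false) 0
  rw [resp_zero] at h1 h2
  rw [h1] at h2
  exact absurd h2 (by decide)

lemma upper_all (N : ℕ) : pRandOpt (N + 1) ≤ 2 / 3 + N / 2 ^ (N + 1) := by
  unfold pRandOpt
  have h1 : ∀ A : Fin (N + 1) → Bool, (⨆ B : {B : Fin (N + 1) → Bool // B ≠ A}, winP B.1 A)
      ≤ 2 / 3 + (S A A + 2 * T A) / (3 * 2 ^ (N + 1)) := by
    intro A
    apply Real.iSup_le
    · rintro ⟨B, hB⟩
      exact upper hB.symm
    · have := S_nonneg A A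
      have := T_nonneg A
      positivity
  have h2 := Finset.sum_le_sum (s := Finset.univ) fun A (_ : A ∈ Finset.univ) => h1 A
  rw [Finset.sum_add_distrib, Finset.sum_const, card_strings, nsmul_eq_mul, ← Finset.sum_div,
    Finset.sum_add_distrib, ← Finset.mul_sum] at h2
  have h3 := sum_S_self (N := N)
  have h4 := sum_T (N := N)
  rw [div_le_iff₀ (by positivity)]
  refine h2.trans ?_
  push_cast
  have hL : (0 : ℝ) < 2 ^ (N + 1) := by positivity
  set L := (2 : ℝ) ^ (N + 1) with hLdef
  have h5 : (∑ A : Fin (N + 1) → Bool, S A A + 2 * ∑ A : Fin (N + 1) → Bool, T A) / (3 * L)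
      ≤ N := by
    rw [div_le_iff₀ (by positivity)]
    linarith
  have h6 : (2 / 3 + (N : ℝ) / L) * L = L * (2 / 3) + N := by field_simp
  rw [h6]
  linarith

lemma lower_all (N : ℕ) (hN : 1 ≤ N) : 2 / 3 - 4 * N / 2 ^ (N + 1) ≤ pRandOpt (N + 1) := by
  unfold pRandOpt
  have h1 : ∀ A : Fin (N + 1) → Bool, 2 / 3 - 2 / 3 *
      ((S A (resp true A) + 2 * S (resp true A) (resp true A))
        + (S A (resp false A) + 2 * S (resp false A) (resp false A))) / 2 ^ (N + 1)
      ≤ (⨆ B : {B : Fin (N + 1) → Bool // B ≠ A}, winP B.1 A) := by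
    intro A
    obtain ⟨b, hb⟩ := nonempty_resp N A
    have h2 := lower hN hb
    have h3 : winP (resp b A) A ≤ (⨆ B : {B : Fin (N + 1) → Bool // B ≠ A}, winP B.1 A) :=
      le_ciSup (f := fun B : {B : Fin (N + 1) → Bool // B ≠ A} => winP B.1 A)
        (Set.finite_range _).bddAbove ⟨resp b A, hb.symm⟩
    refine le_trans ?_ (h2.trans h3)
    have e1 := S_nonneg A (resp true A)
    have e2 := S_nonneg (resp true A) (resp true A)
    have e3 := S_nonneg A (resp false A)
    have e4 := S_nonneg (resp false A) (resp false A)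
    have e5 : S A (resp b A) + 2 * S (resp b A) (resp b A)
        ≤ (S A (resp true A) + 2 * S (resp true A) (resp true A))
        + (S A (resp false A) + 2 * S (resp false A) (resp false A)) := by
      cases b <;> linarith
    have e6 := div_le_div_of_nonneg_right (mul_le_mul_of_nonneg_left e5
      (by norm_num : (0 : ℝ) ≤ 2 / 3)) (by positivity : (0 : ℝ) ≤ 2 ^ (N + 1))
    linarith
  have h2 := Finset.sum_le_sum (s := Finset.univ) fun A (_ : A ∈ Finset.univ) => h1 A
  rw [Finset.sum_sub_distrib, Finset.sum_const, card_strings, nsmul_eq_mul, ← Finset.sum_div,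
    ← Finset.mul_sum, Finset.sum_add_distrib, Finset.sum_add_distrib, Finset.sum_add_distrib,
    ← Finset.mul_sum, ← Finset.mul_sum] at h2
  have e1 := sum_S_resp (N := N) true
  have e2 := sum_S_resp (N := N) false
  have e3 := sum_S_resp_resp (N := N) true
  have e4 := sum_S_resp_resp (N := N) false
  rw [le_div_iff₀ (by positivity)]
  refine le_trans ?_ h2
  push_cast
  have hL : (0 : ℝ) < 2 ^ (N + 1) := by positivity
  set L := (2 : ℝ) ^ (N + 1) with hLdef
  have h6 : (2 / 3 - 4 * (N : ℝ) / L) * L = L * (2 / 3) - 4 * N := by field_simp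
  rw [h6]
  have h7 : 2 / 3 * (∑ A : Fin (N + 1) → Bool, S A (resp true A)
      + 2 * ∑ A : Fin (N + 1) → Bool, S (resp true A) (resp true A)
      + (∑ A : Fin (N + 1) → Bool, S A (resp false A)
      + 2 * ∑ A : Fin (N + 1) → Bool, S (resp false A) (resp false A))) / L ≤ 4 * N := by
    rw [div_le_iff₀ hL]
    linarith
  linarith

lemma pRandOpt_nonneg (n : ℕ) : 0 ≤ pRandOpt n := by
  unfold pRandOpt
  apply div_nonneg
  · exact Finset.sum_nonneg fun A _ => Real.iSup_nonneg fun B => winP_nonneg _ _
  · positivity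

/-- For every `n ≥ 1`, the winning probability of Player II in Penney's game against a uniformly
random string of length `n` differs from `2/3` by at most `4 n / 2^n`. -/
theorem result (n : ℕ) (hn : 1 ≤ n) :
    2 / 3 - 4 * n / 2 ^ n ≤ pRandOpt n ∧ pRandOpt n ≤ 2 / 3 + n / 2 ^ n := by
  obtain ⟨N, rfl⟩ : ∃ N, n = N + 1 := ⟨n - 1, by omega⟩
  constructor
  · rcases Nat.eq_zero_or_pos N with h | h
    · subst h
      have := pRandOpt_nonneg (0 + 1)
      norm_num at this ⊢
      linarith
    · refine le_trans ?_ (lower_all N h)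
      push_cast
      gcongr
      linarith
  · refine (upper_all N).trans ?_
    push_cast
    gcongr
    linarith

end Pool.Agent.Results.MP_988dcd_pr.RandomPlayerBound
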